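import Mathlib

namespace Pool.Agent.H19.AlgC

open Cardinal

lemma mk_basis {P : Type} [Field P] [CharZero P] (x : ℕ → P) (hx : AlgebraicIndependent ℚ x)
    (hP : Cardinal.mk P ≤ ℵ₀) (s : Set P)
    (hs : IsTranscendenceBasis ℚ ((↑) : s → P)) : Cardinal.mk s = ℵ₀ := by
  apply le_antisymm
  · exact (Cardinal.mk_set_le s).trans hP
  · have h1 := hs.cardinalMk_eq_trdeg
    have h2 := hx.cardinalMk_le_trdeg
    rw [h1]
    simpa using h2

theorem iso (P Q : Type) [Field P] [Field Q] [CharZero P] [CharZero Q] [IsAlgClosed P]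
    [IsAlgClosed Q] (f : P →+* Q) (hc : Cardinal.mk Q ≤ Cardinal.mk P) (x : ℕ → P)
    (hx : AlgebraicIndependent ℚ x) : Nonempty (P ≃+* Q) := by
  have hf : Function.Injective f := f.injective
  have he : Cardinal.mk P = Cardinal.mk Q := le_antisymm (Cardinal.mk_le_of_injective hf) hc
  rcases lt_or_ge ℵ₀ (Cardinal.mk P) with h | h
  · exact IsAlgClosed.ringEquiv_of_equiv_of_charZero h (Cardinal.eq.1 he)
  · have hy : AlgebraicIndependent ℚ (fun n => f (x n)) :=
      hx.map' (f := (f.toRatAlgHom : P →ₐ[ℚ] Q)) hf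
    obtain ⟨s, hs⟩ := exists_isTranscendenceBasis ℚ P
    obtain ⟨t, ht⟩ := exists_isTranscendenceBasis ℚ Q
    have h1 := mk_basis x hx h s hs
    have h2 := mk_basis _ hy (he ▸ h) t ht
    obtain ⟨e⟩ := Cardinal.eq.1 (h1.trans h2.symm)
    exact ⟨IsAlgClosed.equivOfTranscendenceBasis _ _ e hs ht⟩

end Pool.Agent.H19.AlgC
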