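import Mathlib

namespace Pool.Agent.H19.AlgI

open MvPolynomial

theorem algindep {L : Type} [CommRing L] {K : Type} [Field K] [CharZero K] (f : K →+* L)
    (hf : Function.Injective f) (d : ℕ → L →+ L)
    (leib : ∀ i a b, d i (a * b) = d i a * b + a * d i b) (h0 : ∀ i a, d i (f a) = 0)
    (s : ℕ → L) (hs : ∀ i j, d i (s j) = if i = j then 1 else 0) (p : (ℕ →₀ ℕ) →₀ K)
    (h : (p.sum fun α a => f a * α.prod fun i k => s i ^ k) = 0) : p = 0 := by
  classical
  have hd : ∀ (q : MvPolynomial ℕ K) (i : ℕ), d i (eval₂ f s q) = eval₂ f s (pderiv i q) := by
    intro q i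
    induction q using MvPolynomial.induction_on with
    | C a => simp [h0]
    | add a b ha hb => simp only [eval₂_add, map_add, ha, hb]
    | mul_X a j ha =>
      rw [eval₂_mul, leib, ha, pderiv_mul, eval₂_add, eval₂_mul, eval₂_mul, eval₂_X, hs, pderiv_X]
      congr 1
      by_cases hij : i = j
      · subst hij; simp
      · simp [hij, eq_comm]
  have key : ∀ n : ℕ, ∀ q : MvPolynomial ℕ K,
      (∀ m : ℕ →₀ ℕ, n < m.degree → coeff m q = 0) → eval₂ f s q = 0 → q = 0 := by
    intro n
    induction n with
    | zero =>
      intro q hq he
      have hc : q = C (coeff 0 q) := by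
        ext m
        rw [coeff_C]
        by_cases hm : 0 = m
        · simp [hm]
        · rw [if_neg hm]
          apply hq
          rw [Nat.pos_iff_ne_zero]
          intro h1
          exact hm ((Finsupp.degree_eq_zero_iff m).1 h1).symm
      rw [hc, eval₂_C] at he
      have : coeff 0 q = 0 := hf (by rw [he, map_zero])
      rw [hc, this, C_0]
    | succ n ih =>
      intro q hq he
      have hz : ∀ i, pderiv i q = 0 := by
        intro i
        apply ih
        · intro m hm
          rw [coeff_pderiv, hq, zero_mul]
          rw [map_add, Finsupp.degree_single]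
          omega
        · rw [← hd, he, map_zero]
      have hc : q = C (coeff 0 q) := by
        ext m
        rw [coeff_C]
        by_cases hm : 0 = m
        · simp [hm]
        · rw [if_neg hm]
          obtain ⟨i, hi⟩ : ∃ i, m i ≠ 0 := by
            by_contra hcon
            push Not at hcon
            exact hm (by ext i; simp [hcon i])
          have h2 := congrArg (coeff (m - Finsupp.single i 1)) (hz i)
          rw [coeff_pderiv, coeff_zero] at h2
          have h3 : m - Finsupp.single i 1 + Finsupp.single i 1 = m := by
            apply tsub_add_cancel_of_le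
            rw [Finsupp.single_le_iff]
            omega
          rw [h3] at h2
          rcases mul_eq_zero.1 h2 with h4 | h4
          · exact h4
          · exfalso
            exact Nat.cast_add_one_ne_zero _ h4
      rw [hc, eval₂_C] at he
      have : coeff 0 q = 0 := hf (by rw [he, map_zero])
      rw [hc, this, C_0]
  have hq : (AddMonoidAlgebra.ofCoeff p : MvPolynomial ℕ K) = 0 := by
    apply key (p.support.sup fun m => m.degree)
    · intro m hm
      by_contra hcon
      have h5 : m ∈ p.support := Finsupp.mem_support_iff.2 hcon
      have := Finset.le_sup (f := fun m : ℕ →₀ ℕ => m.degree) h5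
      omega
    · exact h
  have := congrArg AddMonoidAlgebra.coeff hq
  exact this

end Pool.Agent.H19.AlgI
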