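import Pool.Graph.R_seed8.TH264.MP.PL

set_option autoImplicit false

open MeasureTheory Matrix
open scoped ENNReal

namespace Pool.Agent.H19.Bath

/-- bathtub principle for a function of one variable decreasing in `|t|` -/
theorem bath_one (F : ℝ → ℝ≥0∞) (hF : Measurable F) (hmono : ∀ t t' : ℝ, |t| ≤ |t'| → F t' ≤ F t)
    (f : ℝ → ℝ≥0∞) (hf : Measurable f) (hf1 : ∀ t, f t ≤ 1) (hfi : ∫⁻ t, f t ≤ 1) :
    ∫⁻ t, f t * F t ≤ ∫⁻ t, (Set.Icc (-(1/2) : ℝ) (1/2)).indicator 1 t * F t := by
  set J : Set ℝ := Set.Icc (-(1/2) : ℝ) (1/2) with hJ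
  have hJm : MeasurableSet J := measurableSet_Icc
  have hvol : volume J = 1 := by
    rw [hJ, Real.volume_Icc]; norm_num
  have hR : ∫⁻ t, J.indicator 1 t * F t = ∫⁻ t in J, F t := by
    rw [← lintegral_indicator hJm]
    congr 1
    funext t
    by_cases ht : t ∈ J
    · simp [ht]
    · simp [ht]
  rw [hR]
  have hin : ∀ t ∈ J, F (1/2) ≤ F t := by
    intro t ht
    apply hmono
    rw [abs_of_pos (by norm_num : (0:ℝ) < 1/2)]
    exact abs_le.2 ⟨by linarith [ht.1], ht.2⟩
  have hout : ∀ t ∈ Jᶜ, F t ≤ F (1/2) := by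
    intro t ht
    apply hmono
    rw [abs_of_pos (by norm_num : (0:ℝ) < 1/2)]
    by_contra hcon
    push Not at hcon
    have := abs_lt.1 hcon
    exact ht ⟨by linarith [this.1], this.2.le⟩
  by_cases htop : F (1/2) = ⊤
  · have : ∫⁻ t in J, F t = ⊤ := by
      have h1 : ∫⁻ _t in J, (⊤ : ℝ≥0∞) ≤ ∫⁻ t in J, F t := by
        apply setLIntegral_mono' hJm
        intro t ht
        rw [← htop]; exact hin t ht
      rw [setLIntegral_const, hvol, mul_one] at h1
      exact top_le_iff.1 h1
    rw [this]; exact le_top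
  have hsplit : ∀ h : ℝ → ℝ≥0∞, ∫⁻ t, h t = (∫⁻ t in J, h t) + (∫⁻ t in Jᶜ, h t) := fun h =>
    (lintegral_add_compl h hJm).symm
  have h1f : ∀ t, f t + (1 - f t) = 1 := fun t => add_tsub_cancel_of_le (hf1 t)
  have hm1 : Measurable fun t => 1 - f t := measurable_const.sub hf
  have hJ1 : (∫⁻ t in J, f t) + (∫⁻ t in J, (1 - f t)) = 1 := by
    rw [← lintegral_add_left hf]
    simp_rw [h1f]
    rw [setLIntegral_const, hvol, mul_one]
  have hfin : ∫⁻ t in J, f t ≠ ⊤ := by
    intro h
    rw [h, top_add] at hJ1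
    exact ENNReal.top_ne_one hJ1
  have hcomp : ∫⁻ t in Jᶜ, f t ≤ ∫⁻ t in J, (1 - f t) := by
    have h2 : (∫⁻ t in J, f t) + (∫⁻ t in Jᶜ, f t) ≤ (∫⁻ t in J, f t) + (∫⁻ t in J, (1 - f t)) := by
      rw [hJ1, ← hsplit f]; exact hfi
    exact (ENNReal.add_le_add_iff_left hfin).1 h2
  calc ∫⁻ t, f t * F t = (∫⁻ t in J, f t * F t) + (∫⁻ t in Jᶜ, f t * F t) := hsplit _
    _ ≤ (∫⁻ t in J, f t * F t) + (∫⁻ t in Jᶜ, f t * F (1/2)) := by
        gcongr 1
        apply setLIntegral_mono' hJm.compl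
        intro t ht
        gcongr
        exact hout t ht
    _ = (∫⁻ t in J, f t * F t) + (∫⁻ t in Jᶜ, f t) * F (1/2) := by
        rw [lintegral_mul_const _ hf]
    _ ≤ (∫⁻ t in J, f t * F t) + (∫⁻ t in J, (1 - f t)) * F (1/2) := by
        gcongr
    _ = (∫⁻ t in J, f t * F t) + (∫⁻ t in J, (1 - f t) * F (1/2)) := by
        rw [lintegral_mul_const _ hm1]
    _ ≤ (∫⁻ t in J, f t * F t) + (∫⁻ t in J, (1 - f t) * F t) := by
        gcongr 1
        apply setLIntegral_mono' hJm
        intro t ht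
        gcongr
        exact hin t ht
    _ = ∫⁻ t in J, F t := by
        have hfF : Measurable fun t => f t * F t := hf.mul hF
        rw [← lintegral_add_left hfF]
        congr 1
        funext t
        rw [← add_mul, h1f, one_mul]

/-- substitution `t = a y + c` -/
theorem subst_one (h : ℝ → ℝ≥0∞) (hh : Measurable h) (a c : ℝ) (ha : a ≠ 0) :
    ∫⁻ y, h (a * y + c) = ENNReal.ofReal |a⁻¹| * ∫⁻ t, h t := by
  have h1 : ∫⁻ y, h (a * y + c) = ∫⁻ u, h (u + c) ∂(Measure.map (a * ·) volume) := by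
    have h2 : Measurable fun u : ℝ => h (u + c) := hh.comp (measurable_id.add_const c)
    rw [lintegral_map h2 (measurable_const_mul a)]
  rw [h1, Real.map_volume_mul_left ha, lintegral_smul_measure, lintegral_add_right_eq_self h c]
  rfl

section

variable {m : ℕ} (i : Fin (m + 1)) (w : Fin (m + 1) → ℝ)

def cc (z : Fin m → ℝ) : ℝ := ∑ j, w (i.succAbove j) * z j

theorem cc_meas : Measurable (cc i w) := by
  unfold cc
  exact Finset.measurable_sum _ fun j _ => (measurable_pi_apply j).const_mul _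

theorem cc_lin (a b : ℝ) (z z' : Fin m → ℝ) : cc i w (a • z + b • z') =
    a * cc i w z + b * cc i w z' := by
  unfold cc
  rw [Finset.mul_sum, Finset.mul_sum, ← Finset.sum_add_distrib]
  refine Finset.sum_congr rfl fun j _ => ?_
  simp only [Pi.add_apply, Pi.smul_apply, smul_eq_mul]
  ring

noncomputable def phi (t : ℝ) (z : Fin m → ℝ) : Fin (m + 1) → ℝ :=
  i.insertNth (α := fun _ => ℝ) ((t - cc i w z) / w i) z

theorem phi_lin (a b t t' : ℝ) (z z' : Fin m → ℝ) :
    phi i w (a * t + b * t') (a • z + b • z') = a • phi i w t z + b • phi i w t' z' := by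
  funext j
  unfold phi
  rw [cc_lin]
  refine Fin.succAboveCases i ?_ (fun l => ?_) j
  · simp only [Fin.insertNth_apply_same, Pi.add_apply, Pi.smul_apply, smul_eq_mul]
    ring
  · simp only [Fin.insertNth_apply_succAbove, Pi.add_apply, Pi.smul_apply, smul_eq_mul]

theorem dot_insert (y : ℝ) (z : Fin m → ℝ) :
    w ⬝ᵥ (i.insertNth (α := fun _ => ℝ) y z) = w i * y + cc i w z := by
  unfold dotProduct cc
  rw [Fin.sum_univ_succAbove _ i]
  simp

theorem insert_meas : Measurable fun p : ℝ × (Fin m → ℝ) =>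
    i.insertNth (α := fun _ => ℝ) p.1 p.2 := by
  exact (MeasurableEquiv.piFinSuccAbove (fun _ : Fin (m + 1) => ℝ) i).symm.measurable

theorem phi_meas : Measurable fun p : ℝ × (Fin m → ℝ) => phi i w p.1 p.2 := by
  unfold phi
  have h : Measurable fun p : ℝ × (Fin m → ℝ) => ((p.1 - cc i w p.2) / w i, p.2) :=
    ((measurable_fst.sub ((cc_meas i w).comp measurable_snd)).div_const _).prodMk measurable_snd
  exact (insert_meas i).comp h

/-- integration over the hyperplanes `w ⬝ᵥ x = t` -/
theorem slices (g : (Fin (m + 1) → ℝ) → ℝ≥0∞) (hg : Measurable g) (hw : w i ≠ 0) (f : ℝ → ℝ≥0∞)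
    (hf : Measurable f) : ∫⁻ x, f (w ⬝ᵥ x) * g x =
      ENNReal.ofReal |(w i)⁻¹| * ∫⁻ t, f t * ∫⁻ z, g (phi i w t z) := by
  have hdot : Measurable fun x : Fin (m + 1) → ℝ => w ⬝ᵥ x := by
    unfold dotProduct
    exact Finset.measurable_sum _ fun j _ => (measurable_pi_apply j).const_mul _
  have hH : Measurable fun x : Fin (m + 1) → ℝ => f (w ⬝ᵥ x) * g x := (hf.comp hdot).mul hg
  have hmp := (volume_preserving_piFinSuccAbove (fun _ : Fin (m + 1) => ℝ) i).symm
  have h1 := hmp.lintegral_comp hH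
  rw [← h1]
  have h2 : ∀ p : ℝ × (Fin m → ℝ),
      (MeasurableEquiv.piFinSuccAbove (fun _ : Fin (m + 1) => ℝ) i).symm p =
        i.insertNth (α := fun _ => ℝ) p.1 p.2 := fun p => rfl
  simp_rw [h2, dot_insert]
  have hG : Measurable fun p : ℝ × (Fin m → ℝ) => f p.1 * g (phi i w p.1 p.2) :=
    (hf.comp measurable_fst).mul (hg.comp (phi_meas i w))
  have hK : Measurable fun p : ℝ × (Fin m → ℝ) => f (w i * p.1 + cc i w p.2) *
      g (i.insertNth (α := fun _ => ℝ) p.1 p.2) :=
    (hf.comp ((measurable_fst.const_mul _).add ((cc_meas i w).comp measurable_snd))).mul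
      (hg.comp (insert_meas i))
  rw [Measure.volume_eq_prod, lintegral_prod_symm' _ hK]
  have h3 : ∀ z : Fin m → ℝ, ∫⁻ y, f (w i * y + cc i w z) *
      g (i.insertNth (α := fun _ => ℝ) y z) =
      ENNReal.ofReal |(w i)⁻¹| * ∫⁻ t, f t * g (phi i w t z) := by
    intro z
    have hz : Measurable fun t : ℝ => f t * g (phi i w t z) :=
      hG.comp (measurable_id.prodMk measurable_const)
    rw [← subst_one _ hz (w i) (cc i w z) hw]
    congr 1
    funext y
    congr 2
    unfold phi
    congr 1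
    field_simp
    ring
  simp_rw [h3]
  rw [lintegral_const_mul]
  · congr 1
    have hsw : AEMeasurable (Function.uncurry fun (z : Fin m → ℝ) (t : ℝ) =>
        f t * g (phi i w t z)) (volume.prod volume) := (hG.comp measurable_swap).aemeasurable
    rw [lintegral_lintegral_swap hsw]
    congr 1
    funext t
    rw [lintegral_const_mul]
    exact hg.comp ((phi_meas i w).comp (measurable_const.prodMk measurable_id))
  · exact (hG.comp measurable_swap).lintegral_prod_right'

end

theorem bath (k : ℕ) (g : (Fin k → ℝ) → ℝ≥0∞) (hg : Measurable g) (heven : ∀ x, g (-x) = g x)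
    (hlc : ∀ s : ℝ, 0 < s → s < 1 → ∀ x y, g x ^ s * g y ^ (1 - s) ≤ g (s • x + (1 - s) • y))
    (w : Fin k → ℝ) (f : ℝ → ℝ≥0∞) (hf : Measurable f) (hf1 : ∀ t, f t ≤ 1)
    (hfi : ∫⁻ t, f t ≤ 1) :
    ∫⁻ x, f (w ⬝ᵥ x) * g x ≤
      ∫⁻ x, (Set.Icc (-(1/2) : ℝ) (1/2)).indicator 1 (w ⬝ᵥ x) * g x := by
  by_cases hw : w = 0
  · subst hw
    apply lintegral_mono
    intro x
    have h0 : (0 : ℝ) ∈ Set.Icc (-(1/2) : ℝ) (1/2) := by constructor <;> norm_num
    simp only [zero_dotProduct]
    rw [Set.indicator_of_mem h0]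
    gcongr
    exact hf1 0
  obtain ⟨i, hi⟩ : ∃ i, w i ≠ 0 := by
    by_contra hcon
    push Not at hcon
    exact hw (funext hcon)
  cases k with
  | zero => exact i.elim0
  | succ m =>
    rw [slices i w g hg hi f hf,
      slices i w g hg hi _ (measurable_one.indicator measurableSet_Icc)]
    gcongr 1
    set F : ℝ → ℝ≥0∞ := fun t => ∫⁻ z, g (phi i w t z) with hFdef
    have hF : Measurable F := by
      have := (hg.comp (phi_meas i w)).lintegral_prod_right' (ν := volume)
      exact this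
    have hFe : ∀ t, F (-t) = F t := by
      intro t
      rw [hFdef]
      show ∫⁻ z, g (phi i w (-t) z) = ∫⁻ z, g (phi i w t z)
      rw [← lintegral_neg_eq_self (fun z => g (phi i w (-t) z))]
      congr 1
      funext z
      have h := phi_lin i w (-1) 0 t 0 z 0
      simp only [neg_mul, one_mul, zero_mul, add_zero, neg_smul, one_smul, zero_smul] at h
      rw [h, heven]
    have hmono : ∀ t t' : ℝ, |t| ≤ |t'| → F t' ≤ F t := by
      intro t t' htt
      by_cases h0 : t' = 0
      · subst h0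
        have : t = 0 := by simpa using htt
        rw [this]
      by_cases h1 : t = t'
      · rw [h1]
      by_cases h2 : t = -t'
      · rw [h2, hFe]
      set s : ℝ := (1 + t / t') / 2 with hs
      have hr : |t / t'| ≤ 1 := by
        rw [abs_div]
        exact div_le_one_of_le₀ htt (abs_nonneg _)
      have hr' := abs_le.1 hr
      have hne1 : t / t' ≠ 1 := fun h => h1 (by field_simp at h; exact h)
      have hne2 : t / t' ≠ -1 := fun h => h2 (by field_simp at h; linarith)
      have hlt1 : t / t' < 1 := lt_of_le_of_ne hr'.2 hne1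
      have hlt2 : -1 < t / t' := lt_of_le_of_ne hr'.1 (Ne.symm hne2)
      have hs0 : 0 < s := by rw [hs]; linarith
      have hs1 : s < 1 := by rw [hs]; linarith
      have ht : t = s * t' + (1 - s) * (-t') := by
        rw [hs]; field_simp; ring
      have hmz : ∀ u : ℝ, Measurable fun z => g (phi i w u z) := fun u =>
        hg.comp ((phi_meas i w).comp (measurable_const.prodMk measurable_id))
      have hpl := Pool.Agent.TH264.MP.pl m s hs0 hs1 (fun z => g (phi i w t' z))
        (fun z => g (phi i w (-t') z)) (fun z => g (phi i w t z)) (hmz _) (hmz _) (hmz _) (by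
          intro x y
          have := hlc s hs0 hs1 (phi i w t' x) (phi i w (-t') y)
          rw [← phi_lin, ← ht] at this
          exact this)
      have e1 : ∫⁻ z, g (phi i w (-t') z) = ∫⁻ z, g (phi i w t' z) := hFe t'
      rw [e1, ← ENNReal.rpow_add_of_nonneg _ _ hs0.le (by linarith), add_sub_cancel,
        ENNReal.rpow_one] at hpl
      exact hpl
    exact bath_one F hF hmono f hf hf1 hfi

end Pool.Agent.H19.Bath
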